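import Pool.Agent.Lib.MP_e95c01_co.Tube.Defs33

/-!
# The tube graphs are 6-connected
-/

namespace Pool.Agent.Lib.MP_e95c01_co.Tube

/-- If the lists are disjoint, some list avoids a small set. -/
theorem pig {α : Type} : ∀ (Ls : List (List α)) (S : Set α), S.Finite → Ls.flatten.Nodup →
    S.ncard < Ls.length → ∃ L ∈ Ls, ∀ y ∈ L, y ∉ S := by
  intro Ls
  induction Ls with
  | nil => intro S _ _ h; simp at h
  | cons L Ls ih =>
    intro S hS hn hc
    by_cases h : ∀ y ∈ L, y ∉ S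
    · exact ⟨L, by simp, h⟩
    · push Not at h
      obtain ⟨y, hy, hyS⟩ := h
      rw [List.flatten_cons, List.nodup_append] at hn
      have h1 : (S \ {y}).ncard < Ls.length := by
        have := Set.ncard_sdiff_singleton_lt_of_mem hyS hS
        simp only [List.length_cons] at hc
        omega
      obtain ⟨L', hL', h2⟩ := ih (S \ {y}) hS.sdiff hn.2.1 h1
      refine ⟨L', by simp [hL'], ?_⟩
      intro z hz hzS
      apply h2 z hz
      refine ⟨hzS, ?_⟩
      intro h3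
      rw [Set.mem_singleton_iff] at h3
      exact hn.2.2 y hy z (List.mem_flatten.mpr ⟨L', hL', hz⟩) h3.symm

section
variable (m : ℕ) (S : Set (Ty × ℕ))

/-- a vertex that is not deleted -/
def al (x : Ty × ℕ) : Prop := x.2 < sz m x.1 ∧ x ∉ S

/-- reachability after the deletion -/
def Rc : Ty × ℕ → Ty × ℕ → Prop :=
  Relation.ReflTransGen (fun x y => al m S x ∧ al m S y ∧ ad m x y)

/-- the list is a path from `x` to a vertex with property `T` -/
def Pth (T : Ty × ℕ → Prop) : Ty × ℕ → List (Ty × ℕ) → Prop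
  | x, [] => T x
  | x, y :: L => (x = y ∨ ad m x y) ∧ Pth T y L

end

variable {m : ℕ} {S : Set (Ty × ℕ)}

theorem Rc.refl (x : Ty × ℕ) : Rc m S x x := Relation.ReflTransGen.refl

theorem Rc.trans {x y z : Ty × ℕ} (h : Rc m S x y) (h' : Rc m S y z) : Rc m S x z :=
  Relation.ReflTransGen.trans h h'

theorem Rc.symm {x y : Ty × ℕ} (h : Rc m S x y) : Rc m S y x := by
  induction h with
  | refl => exact Relation.ReflTransGen.refl
  | tail _ h ih => exact Relation.ReflTransGen.head ⟨h.2.1, h.1, h.2.2.symm⟩ ih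

theorem Rc.one {x y : Ty × ℕ} (hx : al m S x) (hy : al m S y) (h : ad m x y) : Rc m S x y :=
  Relation.ReflTransGen.single ⟨hx, hy, h⟩

theorem of_pth {T : Ty × ℕ → Prop} : ∀ (L : List (Ty × ℕ)) (x : Ty × ℕ), al m S x →
    (∀ y ∈ L, al m S y) → Pth m T x L → ∃ y, T y ∧ al m S y ∧ Rc m S x y := by
  intro L
  induction L with
  | nil => intro x hx _ h; exact ⟨x, h, hx, Rc.refl x⟩
  | cons y L ih =>
    intro x hx hL h
    obtain ⟨z, hz, hz1, hz2⟩ := ih y (hL y (by simp)) (fun z hz => hL z (by simp [hz])) h.2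
    refine ⟨z, hz, hz1, ?_⟩
    rcases h.1 with h1 | h1
    · rw [h1]; exact hz2
    · exact (Rc.one hx (hL y (by simp)) h1).trans hz2

/-- all members of the list have property `p` -/
def All {α : Type} (p : α → Prop) : List α → Prop
  | [] => True
  | y :: L => p y ∧ All p L

theorem all_iff {α : Type} {p : α → Prop} {L : List α} : All p L ↔ ∀ y ∈ L, p y := by
  induction L with
  | nil => simp [All]
  | cons y L ih => simp [All, ih]

/-- disjoint paths -/
theorem fan (P : Set (Ty × ℕ)) {T : Ty × ℕ → Prop} (hS : S.Finite) {x : Ty × ℕ}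
    (hx : al m S x) (Ls : List (List (Ty × ℕ))) (hc : (S ∩ P).ncard < Ls.length)
    (hn : Ls.flatten.Nodup) (hv : All (All fun y => y.2 < sz m y.1 ∧ y ∈ P) Ls)
    (hp : All (Pth m T x) Ls) : ∃ y, T y ∧ al m S y ∧ Rc m S x y := by
  rw [all_iff] at hp hv
  have hv : ∀ L ∈ Ls, ∀ y ∈ L, y.2 < sz m y.1 ∧ y ∈ P := fun L hL => all_iff.mp (hv L hL)
  obtain ⟨L, hL, h⟩ := pig Ls (S ∩ P) (hS.inter_of_left P) hn hc
  exact of_pth L x hx (fun y hy => ⟨(hv L hL y hy).1, fun h1 => h y hy ⟨h1, (hv L hL y hy).2⟩⟩)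
    (hp L hL)


theorem fan0 {T : Ty × ℕ → Prop} (hS : S.Finite) (h5 : S.ncard < 6) {x : Ty × ℕ}
    (hx : al m S x) (Ls : List (List (Ty × ℕ))) (hc : Ls.length = 6)
    (hn : Ls.flatten.Nodup) (hv : All (All fun y => y.2 < sz m y.1) Ls)
    (hp : All (Pth m T x) Ls) : ∃ y, T y ∧ al m S y ∧ Rc m S x y := by
  refine fan Set.univ hS hx Ls (by rw [Set.inter_univ, hc]; exact h5) hn ?_ hp
  rw [all_iff] at hv ⊢
  intro L hL
  have h := all_iff.mp (hv L hL)
  exact all_iff.mpr (fun y hy => ⟨h y hy, Set.mem_univ _⟩)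

/-- the hubs -/
def hub : Set (Ty × ℕ) := {x | x.1 = .g}

theorem hubs (hS : S.Finite) (h : (S ∩ hub).ncard ≤ 2) : ∀ d i : ℕ, al m S (.g, i) →
    al m S (.g, i + d) → Rc m S (.g, i) (.g, i + d) := by
  intro d
  induction d using Nat.strong_induction_on with
  | _ d ih =>
    intro i h1 h2
    by_cases hd : d ≤ 3
    · by_cases h0 : d = 0
      · subst h0; exact Rc.refl _
      · exact Rc.one h1 h2 (Or.inl ⟨by omega, by omega⟩)
    · have hb : i + d < m + 4 := h2.1
      obtain ⟨L, hL, h3⟩ := pig [[(Ty.g, i + 1)], [(Ty.g, i + 2)], [(Ty.g, i + 3)]] (S ∩ hub)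
        (hS.inter_of_left _) (by simp) (by simpa using Nat.lt_succ_of_le h)
      have key : ∀ k, 0 < k → k ≤ 3 → (Ty.g, i + k) ∉ S → Rc m S (.g, i) (.g, i + d) := by
        intro k hk0 hk hkS
        have ha : al m S (.g, i + k) := ⟨show i + k < m + 4 by omega, hkS⟩
        have h4 := ih (d - k) (by omega) (i + k) ha (by
          rw [show i + k + (d - k) = i + d by omega]; exact h2)
        rw [show i + k + (d - k) = i + d by omega] at h4
        exact (Rc.one h1 ha (Or.inl ⟨by omega, by omega⟩)).trans h4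
      simp only [List.mem_cons, List.not_mem_nil, or_false] at hL
      rcases hL with rfl | rfl | rfl
      · exact key 1 (by omega) (by omega) (fun h5 => h3 _ (by simp) ⟨h5, rfl⟩)
      · exact key 2 (by omega) (by omega) (fun h5 => h3 _ (by simp) ⟨h5, rfl⟩)
      · exact key 3 (by omega) (by omega) (fun h5 => h3 _ (by simp) ⟨h5, rfl⟩)

/-- the vertices of the complete graphs -/
def isK : Ty → Prop
  | .a _ => True
  | .b _ => True
  | .c _ => True
  | _ => False

theorem kmid (hS : S.Finite) (h5 : S.ncard < 6) {t : Ty} {j : ℕ} (h1 : 1 ≤ j) (h2 : j + 2 ≤ m)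
    (hx : al m S (t, j)) (ht : isK t) : ∃ y, y.1 = .g ∧ al m S y ∧ Rc m S (t, j) y := by
  refine fan0 (T := fun y => y.1 = .g) hS h5 hx
    [[(.a false, j), (.n false, j), (.g, j)],
     [(.a true, j), (.n true, j), (.g, j + 3)],
     [(.c false, j), (.l, j), (.c false, j - 1), (.a false, j - 1), (.n false, j - 1),
      (.g, j - 1)],
     [(.b false, j), (.n false, j + 1), (.g, j + 1)],
     [(.b true, j), (.n true, j + 1), (.g, j + 4)],
     [(.c true, j), (.l, j + 1), (.c false, j + 1), (.b false, j + 1), (.n false, j + 2),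
      (.g, j + 2)]] rfl ?_ ?_ ?_
  · simp
    repeat' apply And.intro
    all_goals first | omega | (intro h; omega)
  · simp [All, sz]
    omega
  · rcases t with s | _ | s | s | s | _ <;> simp only [isK] at ht <;> cases s <;>
      simp [All, Pth, ad, e] <;> omega

-- BEGIN FANS

theorem kzero (hS : S.Finite) (h5 : S.ncard < 6) {t : Ty} (hm : 2 ≤ m) (ht : isK t)
    (hx : al m S (t, 0)) : ∃ y, y.1 = .g ∧ al m S y ∧ Rc m S (t, 0) y := by
  refine fan0 (T := fun y => y.1 = .g) hS h5 hx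
    [[(.a false, 0), (.n false, 0), (.g, 1)],
     [(.a true, 0), (.n true, 0), (.g, 3)],
     [(.c false, 0), (.l, 0), (.g, 0)],
     [(.b false, 0), (.n false, 1), (.a false, 1), (.b false, 1), (.n false, 2), (.g, 2)],
     [(.b true, 0), (.n true, 1), (.g, 4)],
     [(.c true, 0), (.l, 1), (.c false, 1), (.b true, 1), (.n true, 2), (.g, 5)]] rfl ?_ ?_ ?_
  · simp <;> omega
  · simp [All, sz] <;> omega
  · rcases t with s | _ | s | s | s | _ <;> simp only [isK] at ht <;> cases s <;>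
      simp [All, Pth, ad, e, isK] <;> omega

theorem klast (hS : S.Finite) (h5 : S.ncard < 6) {t : Ty} {j : ℕ} (h1 : 1 ≤ j) (hm : m = j + 1) (ht : isK t)
    (hx : al m S (t, j)) : ∃ y, y.1 = .g ∧ al m S y ∧ Rc m S (t, j) y := by
  refine fan0 (T := fun y => y.1 = .g) hS h5 hx
    [[(.b false, j), (.n true, j + 1), (.g, j + 3)],
     [(.b true, j), (.n false, j + 1), (.g, j + 1)],
     [(.c false, j), (.l, j + 1), (.g, j + 4)],
     [(.a false, j), (.n true, j), (.b false, j - 1), (.a false, j - 1), (.n true, j - 1), (.g, j + 2)],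
     [(.a true, j), (.n false, j), (.g, j)],
     [(.c true, j), (.l, j), (.c false, j - 1), (.a true, j - 1), (.n false, j - 1), (.g, j - 1)]] rfl ?_ ?_ ?_
  · simp <;> omega
  · simp [All, sz] <;> omega
  · rcases t with s | _ | s | s | s | _ <;> simp only [isK] at ht <;> cases s <;>
      simp [All, Pth, ad, e, isK] <;> omega

theorem nmid (hS : S.Finite) (h5 : S.ncard < 6) {s : Bool} {i : ℕ} (h1 : 1 ≤ i) (h2 : i + 1 ≤ m)
    (hx : al m S (.n s, i)) : ∃ y, (y.1 = .g ∨ isK y.1) ∧ al m S y ∧ Rc m S (.n s, i) y := by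
  refine fan0 (T := fun y => (y.1 = .g ∨ isK y.1)) hS h5 hx
    [[(.n false, i), (.g, i)],
     [(.n true, i), (.g, i + 3)],
     [(.b false, i - 1)],
     [(.b true, i - 1)],
     [(.a false, i)],
     [(.a true, i)]] rfl ?_ ?_ ?_
  · simp <;> omega
  · simp [All, sz] <;> omega
  · cases s <;> simp [All, Pth, ad, e, isK] <;> omega

theorem nzero (hS : S.Finite) (h5 : S.ncard < 6) {s : Bool} (hm : 2 ≤ m)
    (hx : al m S (.n s, 0)) : ∃ y, (y.1 = .g ∨ isK y.1) ∧ al m S y ∧ Rc m S (.n s, 0) y := by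
  refine fan0 (T := fun y => (y.1 = .g ∨ isK y.1)) hS h5 hx
    [[(.g, 0)],
     [(.n false, 0), (.g, 1)],
     [(.n true, 0), (.g, 3)],
     [(.a false, 0)],
     [(.a true, 0)],
     [(.l, 0), (.c false, 0)]] rfl ?_ ?_ ?_
  · simp <;> omega
  · simp [All, sz] <;> omega
  · cases s <;> simp [All, Pth, ad, e, isK] <;> omega

theorem nlast (hS : S.Finite) (h5 : S.ncard < 6) {s : Bool} {j : ℕ} (hm : m = j + 1)
    (hx : al m S (.n s, j + 1)) : ∃ y, (y.1 = .g ∨ isK y.1) ∧ al m S y ∧ Rc m S (.n s, j + 1) y := by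
  refine fan0 (T := fun y => (y.1 = .g ∨ isK y.1)) hS h5 hx
    [[(.g, j + 4)],
     [(.n true, j + 1), (.g, j + 3)],
     [(.n false, j + 1), (.g, j + 1)],
     [(.b false, j)],
     [(.b true, j)],
     [(.l, j + 1), (.c false, j)]] rfl ?_ ?_ ?_
  · simp <;> omega
  · simp [All, sz] <;> omega
  · cases s <;> simp [All, Pth, ad, e, isK] <;> omega

theorem lmid (hS : S.Finite) (h5 : S.ncard < 6) {i : ℕ} (h1 : 2 ≤ i) (h2 : i + 2 ≤ m)
    (hx : al m S (.l, i)) : ∃ y, (y.1 = .g ∨ isK y.1) ∧ al m S y ∧ Rc m S (.l, i) y := by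
  refine fan0 (T := fun y => (y.1 = .g ∨ isK y.1)) hS h5 hx
    [[(.c false, i - 1)],
     [(.c true, i - 1)],
     [(.c false, i)],
     [(.c true, i)],
     [(.l, i - 1), (.c false, i - 2)],
     [(.l, i + 1), (.c false, i + 1)]] rfl ?_ ?_ ?_
  · simp <;> omega
  · simp [All, sz] <;> omega
  · simp [All, Pth, ad, e, isK] <;> omega

theorem lzero (hS : S.Finite) (h5 : S.ncard < 6) (hm : 2 ≤ m)
    (hx : al m S (.l, 0)) : ∃ y, (y.1 = .g ∨ isK y.1) ∧ al m S y ∧ Rc m S (.l, 0) y := by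
  refine fan0 (T := fun y => (y.1 = .g ∨ isK y.1)) hS h5 hx
    [[(.g, 0)],
     [(.n false, 0), (.g, 1)],
     [(.n true, 0), (.g, 3)],
     [(.c false, 0)],
     [(.c true, 0)],
     [(.l, 1), (.c false, 1)]] rfl ?_ ?_ ?_
  · simp <;> omega
  · simp [All, sz] <;> omega
  · simp [All, Pth, ad, e, isK] <;> omega

theorem lone (hS : S.Finite) (h5 : S.ncard < 6) (hm : 3 ≤ m)
    (hx : al m S (.l, 1)) : ∃ y, (y.1 = .g ∨ isK y.1) ∧ al m S y ∧ Rc m S (.l, 1) y := by
  refine fan0 (T := fun y => (y.1 = .g ∨ isK y.1)) hS h5 hx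
    [[(.c false, 0)],
     [(.c true, 0)],
     [(.c false, 1)],
     [(.c true, 1)],
     [(.l, 0), (.g, 0)],
     [(.l, 2), (.c false, 2)]] rfl ?_ ?_ ?_
  · simp <;> omega
  · simp [All, sz] <;> omega
  · simp [All, Pth, ad, e, isK] <;> omega

theorem lpre (hS : S.Finite) (h5 : S.ncard < 6) {j : ℕ} (h1 : 1 ≤ j) (hm : m = j + 2)
    (hx : al m S (.l, j + 1)) : ∃ y, (y.1 = .g ∨ isK y.1) ∧ al m S y ∧ Rc m S (.l, j + 1) y := by
  refine fan0 (T := fun y => (y.1 = .g ∨ isK y.1)) hS h5 hx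
    [[(.c false, j)],
     [(.c true, j)],
     [(.c false, j + 1)],
     [(.c true, j + 1)],
     [(.l, j + 2), (.g, j + 5)],
     [(.l, j), (.c false, j - 1)]] rfl ?_ ?_ ?_
  · simp <;> omega
  · simp [All, sz] <;> omega
  · simp [All, Pth, ad, e, isK] <;> omega

theorem llast (hS : S.Finite) (h5 : S.ncard < 6) {j : ℕ} (h1 : 1 ≤ j) (hm : m = j + 1)
    (hx : al m S (.l, j + 1)) : ∃ y, (y.1 = .g ∨ isK y.1) ∧ al m S y ∧ Rc m S (.l, j + 1) y := by
  refine fan0 (T := fun y => (y.1 = .g ∨ isK y.1)) hS h5 hx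
    [[(.g, j + 4)],
     [(.n true, j + 1), (.g, j + 3)],
     [(.n false, j + 1), (.g, j + 1)],
     [(.c false, j)],
     [(.c true, j)],
     [(.l, j), (.c false, j - 1)]] rfl ?_ ?_ ?_
  · simp <;> omega
  · simp [All, sz] <;> omega
  · simp [All, Pth, ad, e, isK] <;> omega

theorem gmid (hS : S.Finite) (h5 : S.ncard < 6) {j : ℕ} (h1 : 3 ≤ j) (h2 : j ≤ m)
    (hx : al m S (.g, j)) : ∃ y, y.1 ≠ .g ∧ al m S y ∧ Rc m S (.g, j) y := by
  refine fan0 (T := fun y => y.1 ≠ .g) hS h5 hx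
    [[(.n false, j)],
     [(.n true, j - 3)],
     [(.g, j - 1), (.n false, j - 1)],
     [(.g, j - 2), (.n false, j - 2)],
     [(.g, j + 1), (.n true, j - 2)],
     [(.g, j + 2), (.n true, j - 1)]] rfl ?_ ?_ ?_
  · simp <;> omega
  · simp [All, sz] <;> omega
  · simp [All, Pth, ad, e, isK] <;> omega

theorem g0 (hS : S.Finite) (h5 : S.ncard < 6) (hm : 5 ≤ m)
    (hx : al m S (.g, 0)) : ∃ y, y.1 ≠ .g ∧ al m S y ∧ Rc m S (.g, 0) y := by
  refine fan0 (T := fun y => y.1 ≠ .g) hS h5 hx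
    [[(.n false, 0)],
     [(.n true, 0)],
     [(.l, 0)],
     [(.g, 1), (.n false, 1)],
     [(.g, 2), (.n false, 2)],
     [(.g, 3), (.n false, 3)]] rfl ?_ ?_ ?_
  · simp <;> omega
  · simp [All, sz] <;> omega
  · simp [All, Pth, ad, e, isK] <;> omega

theorem g1 (hS : S.Finite) (h5 : S.ncard < 6) (hm : 5 ≤ m)
    (hx : al m S (.g, 1)) : ∃ y, y.1 ≠ .g ∧ al m S y ∧ Rc m S (.g, 1) y := by
  refine fan0 (T := fun y => y.1 ≠ .g) hS h5 hx
    [[(.n false, 0)],
     [(.n false, 1)],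
     [(.g, 0), (.n true, 0)],
     [(.g, 2), (.n false, 2)],
     [(.g, 3), (.n false, 3)],
     [(.g, 4), (.n false, 4)]] rfl ?_ ?_ ?_
  · simp <;> omega
  · simp [All, sz] <;> omega
  · simp [All, Pth, ad, e, isK] <;> omega

theorem g2 (hS : S.Finite) (h5 : S.ncard < 6) (hm : 5 ≤ m)
    (hx : al m S (.g, 2)) : ∃ y, y.1 ≠ .g ∧ al m S y ∧ Rc m S (.g, 2) y := by
  refine fan0 (T := fun y => y.1 ≠ .g) hS h5 hx
    [[(.n false, 2)],
     [(.g, 0), (.n true, 0)],
     [(.g, 1), (.n false, 1)],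
     [(.g, 3), (.n false, 3)],
     [(.g, 4), (.n false, 4)],
     [(.g, 5), (.n false, 5)]] rfl ?_ ?_ ?_
  · simp <;> omega
  · simp [All, sz] <;> omega
  · simp [All, Pth, ad, e, isK] <;> omega

theorem g3 (hS : S.Finite) (h5 : S.ncard < 6) (hm : 5 ≤ m)
    (hx : al m S (.g, m + 3)) : ∃ y, y.1 ≠ .g ∧ al m S y ∧ Rc m S (.g, m + 3) y := by
  refine fan0 (T := fun y => y.1 ≠ .g) hS h5 hx
    [[(.n true, m)],
     [(.n false, m)],
     [(.l, m)],
     [(.g, m + 2), (.n true, m - 1)],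
     [(.g, m + 1), (.n true, m - 2)],
     [(.g, m), (.n true, m - 3)]] rfl ?_ ?_ ?_
  · simp <;> omega
  · simp [All, sz] <;> omega
  · simp [All, Pth, ad, e, isK] <;> omega

theorem g4 (hS : S.Finite) (h5 : S.ncard < 6) (hm : 5 ≤ m)
    (hx : al m S (.g, m + 2)) : ∃ y, y.1 ≠ .g ∧ al m S y ∧ Rc m S (.g, m + 2) y := by
  refine fan0 (T := fun y => y.1 ≠ .g) hS h5 hx
    [[(.n true, m)],
     [(.n true, m - 1)],
     [(.g, m + 3), (.n false, m)],
     [(.g, m + 1), (.n true, m - 2)],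
     [(.g, m), (.n true, m - 3)],
     [(.g, m - 1), (.n true, m - 4)]] rfl ?_ ?_ ?_
  · simp <;> omega
  · simp [All, sz] <;> omega
  · simp [All, Pth, ad, e, isK] <;> omega

theorem g5 (hS : S.Finite) (h5 : S.ncard < 6) (hm : 5 ≤ m)
    (hx : al m S (.g, m + 1)) : ∃ y, y.1 ≠ .g ∧ al m S y ∧ Rc m S (.g, m + 1) y := by
  refine fan0 (T := fun y => y.1 ≠ .g) hS h5 hx
    [[(.n true, m - 2)],
     [(.g, m + 3), (.n false, m)],
     [(.g, m + 2), (.n true, m - 1)],
     [(.g, m), (.n true, m - 3)],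
     [(.g, m - 1), (.n true, m - 4)],
     [(.g, m - 2), (.n true, m - 5)]] rfl ?_ ?_ ?_
  · simp <;> omega
  · simp [All, sz] <;> omega
  · simp [All, Pth, ad, e, isK] <;> omega

theorem kstep (hS : S.Finite) (h2 : (S ∩ hubᶜ).ncard < 3) {t : Ty} {j : ℕ} (hj : j + 1 < m) (ht : isK t)
    (hx : al m S (t, j + 1)) : ∃ y, (isK y.1 ∧ y.2 = j) ∧ al m S y ∧ Rc m S (t, j + 1) y := by
  refine fan hubᶜ (T := fun y => (isK y.1 ∧ y.2 = j)) hS hx
    [[(.a false, j + 1), (.n false, j + 1), (.b false, j)],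
     [(.a true, j + 1), (.n true, j + 1), (.b true, j)],
     [(.c false, j + 1), (.l, j + 1), (.c false, j)]] h2 ?_ ?_ ?_
  · simp <;> omega
  · simp [All, sz, hub] <;> omega
  · rcases t with s | _ | s | s | s | _ <;> simp only [isK] at ht <;> cases s <;>
      simp [All, Pth, ad, e, isK] <;> omega

theorem n3mid (hS : S.Finite) (h2 : (S ∩ hubᶜ).ncard < 3) {s : Bool} {i : ℕ} (h1 : 1 ≤ i) (h3 : i + 1 ≤ m)
    (hx : al m S (.n s, i)) : ∃ y, isK y.1 ∧ al m S y ∧ Rc m S (.n s, i) y := by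
  refine fan hubᶜ (T := fun y => isK y.1) hS hx
    [[(.b false, i - 1)],
     [(.b true, i - 1)],
     [(.a false, i)]] h2 ?_ ?_ ?_
  · simp <;> omega
  · simp [All, sz, hub] <;> omega
  · cases s <;> simp [All, Pth, ad, e, isK] <;> omega

theorem n3zero (hS : S.Finite) (h2 : (S ∩ hubᶜ).ncard < 3) {s : Bool} (hm : 2 ≤ m)
    (hx : al m S (.n s, 0)) : ∃ y, isK y.1 ∧ al m S y ∧ Rc m S (.n s, 0) y := by
  refine fan hubᶜ (T := fun y => isK y.1) hS hx
    [[(.a false, 0)],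
     [(.a true, 0)],
     [(.l, 0), (.c false, 0)]] h2 ?_ ?_ ?_
  · simp <;> omega
  · simp [All, sz, hub] <;> omega
  · cases s <;> simp [All, Pth, ad, e, isK] <;> omega

theorem n3last (hS : S.Finite) (h2 : (S ∩ hubᶜ).ncard < 3) {s : Bool} {j : ℕ} (hm : m = j + 1)
    (hx : al m S (.n s, j + 1)) : ∃ y, isK y.1 ∧ al m S y ∧ Rc m S (.n s, j + 1) y := by
  refine fan hubᶜ (T := fun y => isK y.1) hS hx
    [[(.b false, j)],
     [(.b true, j)],
     [(.l, j + 1), (.c false, j)]] h2 ?_ ?_ ?_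
  · simp <;> omega
  · simp [All, sz, hub] <;> omega
  · cases s <;> simp [All, Pth, ad, e, isK] <;> omega

theorem l3mid (hS : S.Finite) (h2 : (S ∩ hubᶜ).ncard < 3) {i : ℕ} (h1 : 1 ≤ i) (h3 : i + 1 ≤ m)
    (hx : al m S (.l, i)) : ∃ y, isK y.1 ∧ al m S y ∧ Rc m S (.l, i) y := by
  refine fan hubᶜ (T := fun y => isK y.1) hS hx
    [[(.c false, i - 1)],
     [(.c true, i - 1)],
     [(.c false, i)]] h2 ?_ ?_ ?_
  · simp <;> omega
  · simp [All, sz, hub] <;> omega
  · simp [All, Pth, ad, e, isK] <;> omega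

theorem l3zero (hS : S.Finite) (h2 : (S ∩ hubᶜ).ncard < 3) (hm : 2 ≤ m)
    (hx : al m S (.l, 0)) : ∃ y, isK y.1 ∧ al m S y ∧ Rc m S (.l, 0) y := by
  refine fan hubᶜ (T := fun y => isK y.1) hS hx
    [[(.c false, 0)],
     [(.c true, 0)],
     [(.l, 1), (.c false, 1)]] h2 ?_ ?_ ?_
  · simp <;> omega
  · simp [All, sz, hub] <;> omega
  · simp [All, Pth, ad, e, isK] <;> omega

theorem l3last (hS : S.Finite) (h2 : (S ∩ hubᶜ).ncard < 3) {j : ℕ} (h1 : 1 ≤ j) (hm : m = j + 1)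
    (hx : al m S (.l, j + 1)) : ∃ y, isK y.1 ∧ al m S y ∧ Rc m S (.l, j + 1) y := by
  refine fan hubᶜ (T := fun y => isK y.1) hS hx
    [[(.c false, j)],
     [(.c true, j)],
     [(.l, j), (.c false, j - 1)]] h2 ?_ ?_ ?_
  · simp <;> omega
  · simp [All, sz, hub] <;> omega
  · simp [All, Pth, ad, e, isK] <;> omega

-- BEGIN MAIN

/-- every vertex of a complete graph reaches a hub -/
theorem kall (hm : 5 ≤ m) (hS : S.Finite) (h5 : S.ncard < 6) {x : Ty × ℕ} (hx : al m S x)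
    (ht : isK x.1) : ∃ y, y.1 = .g ∧ al m S y ∧ Rc m S x y := by
  obtain ⟨t, j⟩ := x
  have hj : j < m := by
    have := hx.1
    rcases t with s | _ | s | s | s | _ <;> simp_all [isK, sz]
  by_cases h0 : j = 0
  · subst h0; exact kzero hS h5 (by omega) ht hx
  · by_cases h1 : m = j + 1
    · exact klast hS h5 (by omega) h1 ht hx
    · exact kmid hS h5 (by omega) (by omega) hx ht

/-- every vertex outside the hubs reaches a hub -/
theorem allhub (hm : 5 ≤ m) (hS : S.Finite) (h5 : S.ncard < 6) {x : Ty × ℕ} (hx : al m S x) :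
    ∃ y, y.1 = .g ∧ al m S y ∧ Rc m S x y := by
  have key : (∃ y, (y.1 = .g ∨ isK y.1) ∧ al m S y ∧ Rc m S x y) →
      ∃ y, y.1 = .g ∧ al m S y ∧ Rc m S x y := by
    rintro ⟨y, h1 | h1, h2, h3⟩
    · exact ⟨y, h1, h2, h3⟩
    · obtain ⟨z, hz1, hz2, hz3⟩ := kall hm hS h5 h2 h1
      exact ⟨z, hz1, hz2, h3.trans hz3⟩
  obtain ⟨t, j⟩ := x
  have hj := hx.1
  rcases t with s | _ | s | s | s | _
  · have hj : j < m + 1 := hj
    apply key
    by_cases h0 : j = 0
    · subst h0; exact nzero hS h5 (by omega) hx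
    · by_cases h1 : j = m
      · obtain ⟨k, rfl⟩ : ∃ k, j = k + 1 := ⟨j - 1, by omega⟩
        exact nlast hS h5 h1.symm hx
      · exact nmid hS h5 (by omega) (by omega) hx
  · have hj : j < m + 1 := hj
    apply key
    by_cases h0 : j = 0
    · subst h0; exact lzero hS h5 (by omega) hx
    · by_cases h1 : j = 1
      · subst h1; exact lone hS h5 (by omega) hx
      · by_cases h2 : j = m
        · obtain ⟨k, rfl⟩ : ∃ k, j = k + 1 := ⟨j - 1, by omega⟩
          exact llast hS h5 (by omega) h2.symm hx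
        · by_cases h3 : j + 1 = m
          · obtain ⟨k, rfl⟩ : ∃ k, j = k + 1 := ⟨j - 1, by omega⟩
            exact lpre hS h5 (by omega) h3.symm hx
          · exact lmid hS h5 (by omega) (by omega) hx
  · exact kall hm hS h5 hx trivial
  · exact kall hm hS h5 hx trivial
  · exact kall hm hS h5 hx trivial
  · exact ⟨_, rfl, hx, Rc.refl _⟩

/-- every hub reaches a vertex outside the hubs -/
theorem hubout (hm : 5 ≤ m) (hS : S.Finite) (h5 : S.ncard < 6) {j : ℕ} (hx : al m S (.g, j)) :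
    ∃ y, y.1 ≠ .g ∧ al m S y ∧ Rc m S (.g, j) y := by
  have hj : j < m + 4 := hx.1
  by_cases h0 : j = 0
  · subst h0; exact g0 hS h5 hm hx
  by_cases h1 : j = 1
  · subst h1; exact g1 hS h5 hm hx
  by_cases h2 : j = 2
  · subst h2; exact g2 hS h5 hm hx
  by_cases h3 : j = m + 3
  · subst h3; exact g3 hS h5 hm hx
  by_cases h4 : j = m + 2
  · subst h4; exact g4 hS h5 hm hx
  by_cases h6 : j = m + 1
  · subst h6; exact g5 hS h5 hm hx
  exact gmid hS h5 (by omega) (by omega) hx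

/-- two vertices of the same complete graph -/
theorem same {x y : Ty × ℕ} (hx : al m S x) (hy : al m S y) (h1 : isK x.1) (h2 : isK y.1)
    (h : x.2 = y.2) : Rc m S x y := by
  by_cases hxy : x = y
  · rw [hxy]; exact Rc.refl _
  · apply Rc.one hx hy
    obtain ⟨t, i⟩ := x
    obtain ⟨t', j⟩ := y
    simp only at h
    subst h
    rcases t with s | _ | s | s | s | _ <;> rcases t' with s' | _ | s' | s' | s' | _ <;>
      simp_all [isK, ad, e]

theorem isK_lt {x : Ty × ℕ} (hx : al m S x) (h : isK x.1) : x.2 < m := by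
  obtain ⟨t, j⟩ := x
  have := hx.1
  rcases t with s | _ | s | s | s | _ <;> simp_all [isK, sz]

theorem kk (hS : S.Finite) (h2 : (S ∩ hubᶜ).ncard < 3) : ∀ j : ℕ, ∀ x y : Ty × ℕ,
    al m S x → al m S y → isK x.1 → isK y.1 → x.2 = j → y.2 = 0 → Rc m S x y := by
  intro j
  induction j with
  | zero => intro x y hx hy h3 h4 h5 h6; exact same hx hy h3 h4 (by rw [h5, h6])
  | succ j ih =>
    intro x y hx hy h3 h4 h5 h6
    have hlt := isK_lt hx h3
    obtain ⟨t, i⟩ := x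
    simp only at h5 hlt
    subst h5
    obtain ⟨z, hz1, hz2, hz3⟩ := kstep hS h2 (by omega) h3 hx
    exact hz3.trans (ih z y hz2 hy hz1.1 h4 hz1.2 h6)

theorem outK (hm : 5 ≤ m) (hS : S.Finite) (h2 : (S ∩ hubᶜ).ncard < 3) {x : Ty × ℕ}
    (hx : al m S x) (h : x.1 ≠ .g) : ∃ y, isK y.1 ∧ al m S y ∧ Rc m S x y := by
  obtain ⟨t, j⟩ := x
  have hj := hx.1
  rcases t with s | _ | s | s | s | _
  · have hj : j < m + 1 := hj
    by_cases h0 : j = 0
    · subst h0; exact n3zero hS h2 (by omega) hx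
    · by_cases h1 : j = m
      · obtain ⟨k, rfl⟩ : ∃ k, j = k + 1 := ⟨j - 1, by omega⟩
        exact n3last hS h2 h1.symm hx
      · exact n3mid hS h2 (by omega) (by omega) hx
  · have hj : j < m + 1 := hj
    by_cases h0 : j = 0
    · subst h0; exact l3zero hS h2 (by omega) hx
    · by_cases h1 : j = m
      · obtain ⟨k, rfl⟩ : ∃ k, j = k + 1 := ⟨j - 1, by omega⟩
        exact l3last hS h2 (by omega) h1.symm hx
      · exact l3mid hS h2 (by omega) (by omega) hx
  · exact ⟨(.a s, j), trivial, hx, Rc.refl _⟩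
  · exact ⟨(.b s, j), trivial, hx, Rc.refl _⟩
  · exact ⟨(.c s, j), trivial, hx, Rc.refl _⟩
  · exact absurd rfl h

theorem all_rc (hm : 5 ≤ m) (hS : S.Finite) (h5 : S.ncard < 6) {x y : Ty × ℕ} (hx : al m S x)
    (hy : al m S y) : Rc m S x y := by
  by_cases hc : (S ∩ hub).ncard ≤ 2
  · obtain ⟨⟨t, i⟩, h1, h2, h3⟩ := allhub hm hS h5 hx
    obtain ⟨⟨t', j⟩, h1', h2', h3'⟩ := allhub hm hS h5 hy
    simp only at h1 h1'
    subst h1 h1'
    refine h3.trans (Rc.trans ?_ h3'.symm)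
    rcases le_total i j with h | h
    · have := hubs hS hc (j - i) i h2 (by rw [Nat.add_sub_cancel' h]; exact h2')
      rwa [Nat.add_sub_cancel' h] at this
    · have := hubs hS hc (i - j) j h2' (by rw [Nat.add_sub_cancel' h]; exact h2)
      rw [Nat.add_sub_cancel' h] at this
      exact this.symm
  · have hc2 : (S ∩ hubᶜ).ncard < 3 := by
      have h1 : (S ∩ hub).ncard + (S \ hub).ncard = S.ncard :=
        Set.ncard_inter_add_ncard_sdiff_eq_ncard S hub hS
      rw [Set.sdiff_eq] at h1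
      omega
    -- a vertex of the first complete graph
    obtain ⟨z, hz1, hz2, hz3⟩ : ∃ z, isK z.1 ∧ z.2 = 0 ∧ al m S z := by
      obtain ⟨L, hL, h⟩ := pig [[(Ty.a false, 0)], [(Ty.a true, 0)], [(Ty.b false, 0)],
        [(Ty.b true, 0)], [(Ty.c false, 0)], [(Ty.c true, 0)]] S hS (by simp) h5
      simp only [List.mem_cons, List.not_mem_nil, or_false] at hL
      have h0 : 0 < m := by omega
      rcases hL with rfl | rfl | rfl | rfl | rfl | rfl
      · exact ⟨(.a false, 0), trivial, rfl, h0, h _ (by simp)⟩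
      · exact ⟨(.a true, 0), trivial, rfl, h0, h _ (by simp)⟩
      · exact ⟨(.b false, 0), trivial, rfl, h0, h _ (by simp)⟩
      · exact ⟨(.b true, 0), trivial, rfl, h0, h _ (by simp)⟩
      · exact ⟨(.c false, 0), trivial, rfl, h0, h _ (by simp)⟩
      · exact ⟨(.c true, 0), trivial, rfl, h0, h _ (by simp)⟩
    have key : ∀ x, al m S x → Rc m S x z := by
      intro x hx
      obtain ⟨w, hw1, hw2, hw3⟩ : ∃ y, y.1 ≠ .g ∧ al m S y ∧ Rc m S x y := by
        by_cases h : x.1 = .g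
        · obtain ⟨t, j⟩ := x
          simp only at h
          subst h
          exact hubout hm hS h5 hx
        · exact ⟨x, h, hx, Rc.refl _⟩
      obtain ⟨v, hv1, hv2, hv3⟩ := outK hm hS hc2 hw2 hw1
      exact hw3.trans (hv3.trans (kk hS hc2 v.2 v z hv2 hz3 hv1 hz1 rfl hz2))
    exact (key x hx).trans (key y hy).symm

theorem stKC33 {m : ℕ} (hm : 5 ≤ m) : KConn 6 (G m) := by
  refine ⟨by rw [card_V]; omega, ?_⟩
  intro S hS
  let S' : Set (Ty × ℕ) := cd '' S
  have hfin : S'.Finite := (Set.toFinite S).image _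
  have hcard : S'.ncard < 6 := lt_of_le_of_lt (Set.ncard_image_le (Set.toFinite S)) hS
  have hal : ∀ x : V m, x ∈ Sᶜ → al m S' (cd x) := by
    intro x hx
    refine ⟨cd_lt x, ?_⟩
    rintro ⟨y, hy, hyx⟩
    exact hx (cd_inj hyx ▸ hy)
  have hback : ∀ x y : Ty × ℕ, Rc m S' x y → ∀ (u v : V m) (hu : u ∈ Sᶜ) (hv : v ∈ Sᶜ),
      cd u = x → cd v = y → ((G m).induce Sᶜ).Reachable ⟨u, hu⟩ ⟨v, hv⟩ := by
    intro x y h
    induction h with
    | refl =>
      intro u v hu hv h1 h2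
      have : u = v := cd_inj (h1.trans h2.symm)
      subst this
      exact SimpleGraph.Reachable.refl _
    | @tail b c _ hbc ih =>
      intro u v hu hv h1 h2
      obtain ⟨w, hw⟩ := exists_cd hbc.1.1
      have hwS : w ∈ Sᶜ := fun h => hbc.1.2 ⟨w, h, hw⟩
      refine (ih u w hu hwS h1 hw).trans (SimpleGraph.Adj.reachable ?_)
      show ad m (cd w) (cd v)
      rw [hw, h2]
      exact hbc.2.2
  rw [SimpleGraph.connected_iff]
  constructor
  · rintro ⟨u, hu⟩ ⟨v, hv⟩
    exact hback _ _ (all_rc hm hfin hcard (hal u hu) (hal v hv)) u v hu hv rfl rfl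
  · have : (Sᶜ).Nonempty := by
      rw [Set.nonempty_compl]
      rintro rfl
      rw [Set.ncard_univ, card_V] at hS
      omega
    exact this.to_subtype

end Pool.Agent.Lib.MP_e95c01_co.Tube
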