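import Pool.Agent.Lib.MP_e95c01_co.Tube.Defs33

/-!
# Every edge of the tube lies in a cut of six vertices
-/

namespace Pool.Agent.Lib.MP_e95c01_co.Tube

namespace Cut57

/-- the list `L` of at most six pairs separates the graph -/
def IsCut (m : ℕ) (L : List (Ty × ℕ)) : Prop :=
  L.length ≤ 6 ∧ ∃ A : Ty × ℕ → Prop,
    (∃ a, a.2 < sz m a.1 ∧ A a ∧ a ∉ L) ∧ (∃ b, b.2 < sz m b.1 ∧ ¬ A b ∧ b ∉ L) ∧
    ∀ u v, u.2 < sz m u.1 → v.2 < sz m v.1 → A u → ad m u v → A v ∨ v ∈ L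

theorem of_cut {m : ℕ} {x y : V m} {L : List (Ty × ℕ)} (h : IsCut m L) (hx : cd x ∈ L)
    (hy : cd y ∈ L) : ¬ KConn 6 (contract (G m) x y) := by
  obtain ⟨hL, A, ⟨a, ha1, ha2, ha3⟩, ⟨b, hb1, hb2, hb3⟩, hcl⟩ := h
  obtain ⟨a', rfl⟩ := exists_cd ha1
  obtain ⟨b', rfl⟩ := exists_cd hb1
  refine not_kconn_contract (T := {v | cd v ∈ L}) (A := {v | A (cd v)}) hx hy ?_ (a := a')
    (b := b') ha2 ha3 hb2 hb3 ?_
  · classical
    have h1 : (cd '' {v : V m | cd v ∈ L}).ncard = {v : V m | cd v ∈ L}.ncard :=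
      Set.ncard_image_of_injective _ fun _ _ h => cd_inj h
    have h2 : cd '' {v : V m | cd v ∈ L} ⊆ (↑L.toFinset : Set (Ty × ℕ)) := by
      rintro _ ⟨v, hv, rfl⟩
      simpa using hv
    have h3 := Set.ncard_le_ncard h2 (Set.toFinite _)
    rw [h1, Set.ncard_coe_finset] at h3
    exact h3.trans (L.toFinset_card_le.trans hL)
  · intro u hu v huv
    exact hcl _ _ (cd_lt u) (cd_lt v) hu huv

/-- one vertex -/
theorem single {m : ℕ} (p : Ty × ℕ) (L : List (Ty × ℕ)) (hL : L.length ≤ 6)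
    (hp : p.2 < sz m p.1) (hpL : p ∉ L) (b : Ty × ℕ) (hb : b.2 < sz m b.1) (hbp : b ≠ p)
    (hbL : b ∉ L) (h : ∀ t j, j < sz m t → ad m p (t, j) → (t, j) ∈ L) : IsCut m L :=
  ⟨hL, fun u => u = p, ⟨p, hp, rfl, hpL⟩, ⟨b, hb, hbp, hbL⟩, by
    rintro u ⟨t, j⟩ - hv rfl had
    exact Or.inr (h t j hv had)⟩

/-- two vertices -/
theorem pair {m : ℕ} (p q : Ty × ℕ) (L : List (Ty × ℕ)) (hL : L.length ≤ 6)
    (hp : p.2 < sz m p.1) (hpL : p ∉ L) (b : Ty × ℕ) (hb : b.2 < sz m b.1) (hbp : b ≠ p)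
    (hbq : b ≠ q) (hbL : b ∉ L)
    (h : ∀ t j, j < sz m t → ad m p (t, j) → (t, j) = q ∨ (t, j) ∈ L)
    (h' : ∀ t j, j < sz m t → ad m q (t, j) → (t, j) = p ∨ (t, j) ∈ L) : IsCut m L :=
  ⟨hL, fun u => u = p ∨ u = q, ⟨p, hp, Or.inl rfl, hpL⟩,
    ⟨b, hb, fun h => h.elim hbp hbq, hbL⟩, by
    rintro u ⟨t, j⟩ - hv (rfl | rfl) had
    · rcases h t j hv had with h1 | h1
      · exact Or.inl (Or.inr h1)
      · exact Or.inr h1
    · rcases h' t j hv had with h1 | h1
      · exact Or.inl (Or.inl h1)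
      · exact Or.inr h1⟩

section

variable {m : ℕ}

theorem nf0 (hm : 5 ≤ m) : IsCut m [(.n true, 0), (.a false, 0), (.a true, 0), (.l, 0), (.g, 0), (.g, 1)] := by
  refine single (.n false, 0) _ (by simp) (by simp [sz]) (by simp) (.l, m) (by simp [sz])
    (by simp) (by simp; omega) ?_
  rintro ((_|_)|_|(_|_)|(_|_)|(_|_)|_) j hv had <;> simp [ad, e, sz] at had hv ⊢ <;> omega

theorem nt0 (hm : 5 ≤ m) : IsCut m [(.n false, 0), (.a false, 0), (.a true, 0), (.l, 0), (.g, 0), (.g, 3)] := by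
  refine single (.n true, 0) _ (by simp) (by simp [sz]) (by simp) (.l, m) (by simp [sz])
    (by simp) (by simp; omega) ?_
  rintro ((_|_)|_|(_|_)|(_|_)|(_|_)|_) j hv had <;> simp [ad, e, sz] at had hv ⊢ <;> omega

theorem nfm (hm : 5 ≤ m) {k : ℕ} (hk : m = k + 1) : IsCut m [(.n true, m), (.b false, k), (.b true, k),
    (.l, m), (.g, m), (.g, m + 3)] := by
  refine single (.n false, m) _ (by simp) (by simp [sz]) (by simp) (.l, 0) (by simp [sz])
    (by simp) (by simp; omega) ?_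
  rintro ((_|_)|_|(_|_)|(_|_)|(_|_)|_) j hv had <;> simp [ad, e, sz] at had hv ⊢ <;> omega

theorem ntm (hm : 5 ≤ m) {k : ℕ} (hk : m = k + 1) : IsCut m [(.n false, m), (.b false, k), (.b true, k),
    (.l, m), (.g, m + 2), (.g, m + 3)] := by
  refine single (.n true, m) _ (by simp) (by simp [sz]) (by simp) (.l, 0) (by simp [sz])
    (by simp) (by simp; omega) ?_
  rintro ((_|_)|_|(_|_)|(_|_)|(_|_)|_) j hv had <;> simp [ad, e, sz] at had hv ⊢ <;> omega

theorem nf {i : ℕ} (hi : i + 1 < m) : IsCut m [(.n true, i + 1), (.a false, i + 1),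
    (.a true, i + 1), (.b false, i), (.b true, i), (.g, i + 1)] := by
  refine single (.n false, i + 1) _ (by simp) (by simp [sz]; omega) (by simp) (.l, m)
    (by simp [sz]) (by simp) (by simp) ?_
  rintro ((_|_)|_|(_|_)|(_|_)|(_|_)|_) j hv had <;> simp [ad, e, sz] at had hv ⊢ <;> omega

theorem nt {i : ℕ} (hi : i + 1 < m) : IsCut m [(.n false, i + 1), (.a false, i + 1),
    (.a true, i + 1), (.b false, i), (.b true, i), (.g, i + 4)] := by
  refine single (.n true, i + 1) _ (by simp) (by simp [sz]; omega) (by simp) (.l, m)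
    (by simp [sz]) (by simp) (by simp) ?_
  rintro ((_|_)|_|(_|_)|(_|_)|(_|_)|_) j hv had <;> simp [ad, e, sz] at had hv ⊢ <;> omega

theorem l0 (hm : 5 ≤ m) : IsCut m [(.n false, 0), (.n true, 0), (.c false, 0), (.c true, 0), (.l, 1),
    (.g, 0)] := by
  refine single (.l, 0) _ (by simp) (by simp [sz]) (by simp) (.l, m) (by simp [sz])
    (by simp; omega) (by simp; omega) ?_
  rintro ((_|_)|_|(_|_)|(_|_)|(_|_)|_) j hv had <;> simp [ad, e, sz] at had hv ⊢ <;> omega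

theorem lm (hm : 5 ≤ m) {k : ℕ} (hk : m = k + 1) : IsCut m [(.n false, m), (.n true, m), (.c false, k),
    (.c true, k), (.l, k), (.g, m + 3)] := by
  refine single (.l, m) _ (by simp) (by simp [sz]) (by simp; omega) (.l, 0) (by simp [sz])
    (by simp; omega) (by simp; omega) ?_
  rintro ((_|_)|_|(_|_)|(_|_)|(_|_)|_) j hv had <;> simp [ad, e, sz] at had hv ⊢ <;> omega

theorem l {i : ℕ} (hi : i + 1 < m) : IsCut m [(.c false, i + 1), (.c true, i + 1),
    (.c false, i), (.c true, i), (.l, i), (.l, i + 2)] := by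
  refine single (.l, i + 1) _ (by simp) (by simp [sz]; omega) (by simp) (.g, m)
    (by simp [sz]) (by simp) (by simp) ?_
  rintro ((_|_)|_|(_|_)|(_|_)|(_|_)|_) j hv had <;> simp [ad, e, sz] at had hv ⊢ <;> omega

theorem g0 (hm : 5 ≤ m) : IsCut m [(.n false, 0), (.n true, 0), (.l, 0), (.g, 1), (.g, 2), (.g, 3)] := by
  refine single (.g, 0) _ (by simp) (by simp [sz]) (by simp) (.l, m) (by simp [sz])
    (by simp) (by simp; omega) ?_
  rintro ((_|_)|_|(_|_)|(_|_)|(_|_)|_) j hv had <;> simp [ad, e, sz] at had hv ⊢ <;> omega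

theorem g1 : IsCut m [(.n false, 0), (.n false, 1), (.g, 0), (.g, 2), (.g, 3), (.g, 4)] := by
  refine single (.g, 1) _ (by simp) (by simp [sz]) (by simp) (.l, m) (by simp [sz])
    (by simp) (by simp) ?_
  rintro ((_|_)|_|(_|_)|(_|_)|(_|_)|_) j hv had <;> simp [ad, e, sz] at had hv ⊢ <;> omega

theorem gm3 (hm : 5 ≤ m) : IsCut m [(.n false, m), (.n true, m), (.l, m), (.g, m), (.g, m + 1),
    (.g, m + 2)] := by
  refine single (.g, m + 3) _ (by simp) (by simp [sz]) (by simp) (.l, 0) (by simp [sz])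
    (by simp) (by simp; omega) ?_
  rintro ((_|_)|_|(_|_)|(_|_)|(_|_)|_) j hv had <;> simp [ad, e, sz] at had hv ⊢ <;> omega

theorem gm2 {k : ℕ} (hk : m = k + 1) : IsCut m [(.n true, k), (.n true, m), (.g, k), (.g, m),
    (.g, m + 1), (.g, m + 3)] := by
  refine single (.g, m + 2) _ (by simp) (by simp [sz]) (by simp; omega) (.l, 0) (by simp [sz])
    (by simp) (by simp) ?_
  rintro ((_|_)|_|(_|_)|(_|_)|(_|_)|_) j hv had <;> simp [ad, e, sz] at had hv ⊢ <;> omega

theorem ca {i : ℕ} (hi : i < m) : IsCut m [(.n false, i), (.n true, i), (.b false, i),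
    (.b true, i), (.c false, i), (.c true, i)] := by
  refine pair (.a false, i) (.a true, i) _ (by simp) (by simp [sz]; omega) (by simp) (.g, 0)
    (by simp [sz]) (by simp) (by simp) (by simp) ?_ ?_ <;>
  rintro ((_|_)|_|(_|_)|(_|_)|(_|_)|_) j hv had <;> simp [ad, e, sz] at had hv ⊢ <;> omega

theorem cb {i : ℕ} (hi : i < m) : IsCut m [(.n false, i + 1), (.n true, i + 1), (.a false, i),
    (.a true, i), (.c false, i), (.c true, i)] := by
  refine pair (.b false, i) (.b true, i) _ (by simp) (by simp [sz]; omega) (by simp) (.g, 0)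
    (by simp [sz]) (by simp) (by simp) (by simp) ?_ ?_ <;>
  rintro ((_|_)|_|(_|_)|(_|_)|(_|_)|_) j hv had <;> simp [ad, e, sz] at had hv ⊢ <;> omega

theorem cc {i : ℕ} (hi : i < m) : IsCut m [(.l, i), (.l, i + 1), (.a false, i),
    (.a true, i), (.b false, i), (.b true, i)] := by
  refine pair (.c false, i) (.c true, i) _ (by simp) (by simp [sz]; omega) (by simp) (.g, 0)
    (by simp [sz]) (by simp) (by simp) (by simp) ?_ ?_ <;>
  rintro ((_|_)|_|(_|_)|(_|_)|(_|_)|_) j hv had <;> simp [ad, e, sz] at had hv ⊢ <;> omega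

theorem cn {i : ℕ} (hi : i + 1 < m) : IsCut m [(.a false, i + 1), (.a true, i + 1),
    (.b false, i), (.b true, i), (.g, i + 1), (.g, i + 4)] := by
  refine pair (.n false, i + 1) (.n true, i + 1) _ (by simp) (by simp [sz]; omega) (by simp)
    (.l, 0) (by simp [sz]) (by simp) (by simp) (by simp) ?_ ?_ <;>
  rintro ((_|_)|_|(_|_)|(_|_)|(_|_)|_) j hv had <;> simp [ad, e, sz] at had hv ⊢ <;> omega

/-- the cut `S i` -/
theorem cS {i : ℕ} (hi : 1 ≤ i) (hi' : i ≤ m) : IsCut m [(.n false, i), (.n true, i), (.l, i),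
    (.g, i), (.g, i + 1), (.g, i + 2)] := by
  refine ⟨by simp, fun u => u.2 < i, ⟨(.g, 0), by simp [sz], hi, by simp; omega⟩,
    ⟨(.g, m + 3), by simp [sz], by simp; omega, by simp; omega⟩, ?_⟩
  rintro ⟨((_|_)|_|(_|_)|(_|_)|(_|_)|_), k⟩ ⟨((_|_)|_|(_|_)|(_|_)|(_|_)|_), j⟩ hu hv hA had <;>
  simp [ad, e, sz] at had hu hv hA ⊢ <;> omega

/-- the cut `S' i` -/
theorem cS' {i : ℕ} (hi : i < m) : IsCut m [(.n false, i), (.n true, i), (.l, i),
    (.g, i + 1), (.g, i + 2), (.g, i + 3)] := by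
  refine ⟨by simp, fun u => u.2 < i ∨ (u.1 = .g ∧ u.2 = i), ⟨(.g, i), by simp [sz]; omega,
    by simp, by simp⟩, ⟨(.g, m + 3), by simp [sz], by simp; omega, by simp; omega⟩, ?_⟩
  rintro ⟨((_|_)|_|(_|_)|(_|_)|(_|_)|_), k⟩ ⟨((_|_)|_|(_|_)|(_|_)|(_|_)|_), j⟩ hu hv hA had <;>
  simp [ad, e, sz] at had hu hv hA ⊢ <;> omega

end

/-- a cut through `n s i` and its neighbours of the types `a`, `b`, `l` -/
theorem cutN {m : ℕ} (hm : 5 ≤ m) (s : Bool) {i : ℕ} (hi : i ≤ m) : ∃ L, IsCut m L ∧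
    (.n s, i) ∈ L ∧ (i < m → ∀ r, (.a r, i) ∈ L) ∧ (∀ j, i = j + 1 → ∀ r, (.b r, j) ∈ L) ∧
    (i = 0 ∨ i = m → (.l, i) ∈ L) := by
  rcases Nat.eq_zero_or_pos i with rfl | h0
  · cases s
    · exact ⟨_, nt0 hm, by simp, fun _ r => by cases r <;> simp, fun j hj => by omega, by simp⟩
    · exact ⟨_, nf0 hm, by simp, fun _ r => by cases r <;> simp, fun j hj => by omega, by simp⟩
  · obtain ⟨k, rfl⟩ : ∃ k, i = k + 1 := ⟨i - 1, by omega⟩
    rcases Nat.lt_or_eq_of_le hi with h1 | h1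
    · cases s
      · refine ⟨_, nt h1, by simp, fun _ r => by cases r <;> simp, ?_, by omega⟩
        intro j hj r
        obtain rfl : k = j := by omega
        cases r <;> simp
      · refine ⟨_, nf h1, by simp, fun _ r => by cases r <;> simp, ?_, by omega⟩
        intro j hj r
        obtain rfl : k = j := by omega
        cases r <;> simp
    · cases s
      · refine ⟨_, ntm hm h1.symm, by simp [h1], by omega, ?_, by simp [h1]⟩
        intro j hj r
        obtain rfl : k = j := by omega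
        cases r <;> simp
      · refine ⟨_, nfm hm h1.symm, by simp [h1], by omega, ?_, by simp [h1]⟩
        intro j hj r
        obtain rfl : k = j := by omega
        cases r <;> simp

/-- a cut through the neighbours of `l i` of the types `c`, `l` -/
theorem cutL {m : ℕ} (hm : 5 ≤ m) {i : ℕ} (hi : i ≤ m) : ∃ L, IsCut m L ∧
    (i < m → (.l, i + 1) ∈ L ∧ ∀ r, (.c r, i) ∈ L) ∧
    (∀ j, i = j + 1 → (.l, j) ∈ L ∧ ∀ r, (.c r, j) ∈ L) := by
  rcases Nat.eq_zero_or_pos i with rfl | h0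
  · exact ⟨_, l0 hm, fun _ => ⟨by simp, fun r => by cases r <;> simp⟩, fun j hj => by omega⟩
  · obtain ⟨k, rfl⟩ : ∃ k, i = k + 1 := ⟨i - 1, by omega⟩
    rcases Nat.lt_or_eq_of_le hi with h1 | h1
    · refine ⟨_, l h1, fun _ => ⟨by simp, fun r => by cases r <;> simp⟩, ?_⟩
      intro j hj
      obtain rfl : k = j := by omega
      exact ⟨by simp, fun r => by cases r <;> simp⟩
    · refine ⟨_, lm hm h1.symm, by omega, ?_⟩
      intro j hj
      obtain rfl : k = j := by omega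
      exact ⟨by simp, fun r => by cases r <;> simp⟩

/-- edges between the `g i` -/
theorem cutG {m : ℕ} (hm : 5 ≤ m) {i j : ℕ} (hj : j < m + 4) (h : i < j) (h' : j ≤ i + 3) :
    ∃ L, IsCut m L ∧ (.g, i) ∈ L ∧ (.g, j) ∈ L := by
  obtain ⟨k, hk⟩ : ∃ k, m = k + 1 := ⟨m - 1, by omega⟩
  rcases Nat.lt_or_eq_of_le h' with h1 | rfl
  · rcases Nat.eq_zero_or_pos i with rfl | h0
    · rcases (by omega : j = 1 ∨ j = 2) with rfl | rfl
      · exact ⟨_, nf0 hm, by simp, by simp⟩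
      · exact ⟨_, g1, by simp, by simp⟩
    · rcases (by omega : i ≤ m ∨ (i = m + 1 ∧ j = m + 2) ∨ (i = m + 1 ∧ j = m + 3) ∨
        (i = m + 2 ∧ j = m + 3)) with h2 | ⟨rfl, rfl⟩ | ⟨rfl, rfl⟩ | ⟨rfl, rfl⟩
      · exact ⟨_, cS h0 h2, by simp, by simp; omega⟩
      · exact ⟨_, gm3 hm, by simp, by simp⟩
      · exact ⟨_, gm2 hk, by simp, by simp⟩
      · exact ⟨_, ntm hm hk, by simp, by simp⟩
  · rcases Nat.eq_zero_or_pos i with rfl | h0
    · exact ⟨_, nt0 hm, by simp, by simp⟩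
    · rcases (by omega : i < m ∨ i = m) with h2 | rfl
      · obtain ⟨r, rfl⟩ : ∃ r, i = r + 1 := ⟨i - 1, by omega⟩
        exact ⟨_, cn h2, by simp, by simp⟩
      · exact ⟨_, nfm hm hk, by simp, by simp⟩

/-- both ends in one cut -/
theorem key {m : ℕ} (hm : 5 ≤ m) (t : Ty) (i : ℕ) (t' : Ty) (j : ℕ) (hi : i < sz m t)
    (hj : j < sz m t') (h : e m t i t' j) : ∃ L, IsCut m L ∧ (t, i) ∈ L ∧ (t', j) ∈ L := by
  obtain ⟨k, hk⟩ : ∃ k, m = k + 1 := ⟨m - 1, by omega⟩
  cases t with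
  | n s =>
    have hi' : i ≤ m := Nat.lt_succ_iff.1 hi
    cases t' with
    | n s' =>
      obtain ⟨-, rfl⟩ := h
      rcases Nat.lt_or_eq_of_le hi' with h1 | rfl
      · exact ⟨_, ca h1, by cases s <;> simp, by cases s' <;> simp⟩
      · exact ⟨_, cb (i := k) (by omega), by cases s <;> simp [hk], by cases s' <;> simp [hk]⟩
    | l =>
      obtain ⟨rfl, h2⟩ := h
      obtain ⟨L, h3, h4, -, -, h5⟩ := cutN hm s hi'
      exact ⟨L, h3, h4, h5 h2⟩
    | a s' =>
      obtain rfl : i = j := h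
      obtain ⟨L, h3, h4, h5, -⟩ := cutN hm s hi'
      exact ⟨L, h3, h4, h5 hj s'⟩
    | b s' =>
      obtain rfl : i = j + 1 := h
      obtain ⟨L, h3, h4, -, h5, -⟩ := cutN hm s hi'
      exact ⟨L, h3, h4, h5 j rfl s'⟩
    | c s' => exact h.elim
    | g =>
      cases s
      · rcases h with rfl | ⟨rfl, rfl⟩ | ⟨rfl, rfl⟩
        · rcases Nat.eq_zero_or_pos j with rfl | h0
          · exact ⟨_, nt0 hm, by simp, by simp⟩
          · exact ⟨_, cS h0 hi', by simp, by simp⟩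
        · exact ⟨_, g0 hm, by simp, by simp⟩
        · exact ⟨_, ntm hm hk, by simp, by simp⟩
      · rcases h with rfl | ⟨rfl, rfl⟩ | ⟨rfl, rfl⟩
        · rcases Nat.lt_or_eq_of_le hi' with h1 | rfl
          · exact ⟨_, cS' h1, by simp, by simp⟩
          · exact ⟨_, nfm hm hk, by simp, by simp⟩
        · exact ⟨_, nf0 hm, by simp, by simp⟩
        · exact ⟨_, gm3 hm, by simp, by simp⟩
  | l =>
    have hi' : i ≤ m := Nat.lt_succ_iff.1 hi
    cases t' with
    | n s' => exact h.elim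
    | l =>
      obtain rfl : j = i + 1 := h
      exact ⟨_, cc (i := i) (Nat.lt_of_succ_lt_succ hj), by simp, by simp⟩
    | a s' => exact h.elim
    | b s' => exact h.elim
    | c s' =>
      have hj' : j < m := hj
      rcases h with rfl | rfl
      · obtain ⟨L, h1, -, h2⟩ := cutL hm (i := i + 1) hj'
        exact ⟨L, h1, (h2 i rfl).1, (h2 i rfl).2 s'⟩
      · obtain ⟨L, h1, h2, -⟩ := cutL hm (i := j) hj'.le
        exact ⟨L, h1, (h2 hj').1, (h2 hj').2 s'⟩
    | g =>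
      rcases h with ⟨rfl, rfl⟩ | ⟨rfl, rfl⟩
      · exact ⟨_, nt0 hm, by simp, by simp⟩
      · exact ⟨_, nfm hm hk, by simp, by simp⟩
  | a s =>
    have hi' : i < m := hi
    cases t' with
    | n s' => exact h.elim
    | l => exact h.elim
    | a s' =>
      obtain ⟨-, rfl⟩ := h
      obtain ⟨L, h3, -, h5, -⟩ := cutN hm false hi'.le
      exact ⟨L, h3, h5 hi' s, h5 hi' s'⟩
    | b s' =>
      obtain rfl : i = j := h
      exact ⟨_, cc hi', by cases s <;> simp, by cases s' <;> simp⟩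
    | c s' =>
      obtain rfl : i = j := h
      exact ⟨_, cb hi', by cases s <;> simp, by cases s' <;> simp⟩
    | g => exact h.elim
  | b s =>
    have hi' : i < m := hi
    cases t' with
    | n s' => exact h.elim
    | l => exact h.elim
    | a s' => exact h.elim
    | b s' =>
      obtain ⟨-, rfl⟩ := h
      obtain ⟨L, h3, -, -, h5, -⟩ := cutN hm false (i := i + 1) hi'
      exact ⟨L, h3, h5 i rfl s, h5 i rfl s'⟩
    | c s' =>
      obtain rfl : i = j := h
      exact ⟨_, ca hi', by cases s <;> simp, by cases s' <;> simp⟩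
    | g => exact h.elim
  | c s =>
    have hi' : i < m := hi
    cases t' with
    | n s' => exact h.elim
    | l => exact h.elim
    | a s' => exact h.elim
    | b s' => exact h.elim
    | c s' =>
      obtain ⟨-, rfl⟩ := h
      obtain ⟨L, h1, h2, -⟩ := cutL hm (i := i) hi'.le
      exact ⟨L, h1, (h2 hi').2 s, (h2 hi').2 s'⟩
    | g => exact h.elim
  | g =>
    cases t' with
    | n s' => exact h.elim
    | l => exact h.elim
    | a s' => exact h.elim
    | b s' => exact h.elim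
    | c s' => exact h.elim
    | g => exact cutG hm hj h.1 h.2

end Cut57

theorem stCut57 : ∀ m, 5 ≤ m → ∀ x y, (G m).Adj x y → ¬ KConn 6 (contract (G m) x y) := by
  intro m hm x y h
  rcases h with h | h
  · obtain ⟨L, h1, h2, h3⟩ := Cut57.key hm _ _ _ _ (cd_lt x) (cd_lt y) h
    exact Cut57.of_cut h1 h2 h3
  · obtain ⟨L, h1, h2, h3⟩ := Cut57.key hm _ _ _ _ (cd_lt y) (cd_lt x) h
    exact Cut57.of_cut h1 h3 h2

end Pool.Agent.Lib.MP_e95c01_co.Tube
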