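import Pool.Agent.Lib.MP_e95c01_co.Basic

/-!
# A family of 6-contraction-critical graphs with few vertices of degree 6: definitions

The graph `G m` is a chain of `m` complete graphs on six vertices. Vertices: `n false i`, `n true i`
and `l i` for `i ≤ m`, the complete graph `a s i, b s i, c s i` for `i < m`, and `g i` for
`i ≤ m + 3`.
-/

namespace Pool.Agent.Lib.MP_e95c01_co.Tube

/-- the types of the vertices -/
inductive Ty
  | n (s : Bool)
  | l
  | a (s : Bool)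
  | b (s : Bool)
  | c (s : Bool)
  | g
  deriving DecidableEq, Fintype

/-- number of vertices of each type -/
def sz (m : ℕ) : Ty → ℕ
  | .n _ => m + 1
  | .l => m + 1
  | .a _ => m
  | .b _ => m
  | .c _ => m
  | .g => m + 4

/-- the edges, each one in one direction only -/
def e (m : ℕ) : Ty → ℕ → Ty → ℕ → Prop
  | .n s, i, .n s', j => s ≠ s' ∧ i = j
  | .n _, i, .l, j => i = j ∧ (i = 0 ∨ i = m)
  | .n false, i, .g, j => j = i ∨ (i = 0 ∧ j = 1) ∨ (i = m ∧ j = m + 3)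
  | .n true, i, .g, j => j = i + 3 ∨ (i = 0 ∧ j = 0) ∨ (i = m ∧ j = m + 2)
  | .n _, i, .a _, j => i = j
  | .n _, i, .b _, j => i = j + 1
  | .l, i, .l, j => j = i + 1
  | .l, i, .c _, j => i = j ∨ i = j + 1
  | .l, i, .g, j => (i = 0 ∧ j = 0) ∨ (i = m ∧ j = m + 3)
  | .a s, i, .a s', j => s ≠ s' ∧ i = j
  | .a _, i, .b _, j => i = j
  | .a _, i, .c _, j => i = j
  | .b s, i, .b s', j => s ≠ s' ∧ i = j
  | .b _, i, .c _, j => i = j
  | .c s, i, .c s', j => s ≠ s' ∧ i = j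
  | .g, i, .g, j => i < j ∧ j ≤ i + 3
  | _, _, _, _ => False

/-- adjacency of pairs (type, index) -/
def ad (m : ℕ) (x y : Ty × ℕ) : Prop := e m x.1 x.2 y.1 y.2 ∨ e m y.1 y.2 x.1 x.2

/-- the vertices -/
abbrev V (m : ℕ) : Type := Σ t : Ty, Fin (sz m t)

/-- type and index of a vertex -/
def cd {m : ℕ} (x : V m) : Ty × ℕ := (x.1, (x.2 : ℕ))

theorem e_irrefl (m : ℕ) (t : Ty) (i : ℕ) : ¬ e m t i t i := by
  cases t <;> simp [e]

/-- the graph -/
def G (m : ℕ) : SimpleGraph (V m) where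
  Adj x y := ad m (cd x) (cd y)
  symm := ⟨fun _ _ h => h.symm⟩
  loopless := ⟨fun x h => (e_irrefl m x.1 x.2) (h.elim id id)⟩

theorem cd_inj {m : ℕ} {x y : V m} (h : cd x = cd y) : x = y := by
  obtain ⟨t, i⟩ := x
  obtain ⟨t', j⟩ := y
  simp only [cd, Prod.mk.injEq] at h
  obtain ⟨rfl, h⟩ := h
  have : i = j := Fin.ext h
  rw [this]

theorem cd_lt {m : ℕ} (x : V m) : (cd x).2 < sz m (cd x).1 := x.2.2

theorem exists_cd {m : ℕ} {x : Ty × ℕ} (h : x.2 < sz m x.1) : ∃ y : V m, cd y = x :=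
  ⟨⟨x.1, ⟨x.2, h⟩⟩, rfl⟩

theorem card_V (m : ℕ) : Nat.card (V m) = 10 * m + 7 := by
  have h : (Finset.univ : Finset Ty) = {.n false, .n true, .l, .a false, .a true, .b false,
    .b true, .c false, .c true, .g} := by decide
  rw [Nat.card_eq_fintype_card, Fintype.card_sigma]
  simp only [Fintype.card_fin, h]
  simp [sz]
  omega

end Pool.Agent.Lib.MP_e95c01_co.Tube
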