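import Pool.Agent.Lib.MP_e95c01_co.Tube.Defs33

/-!
# The tube graphs: the number of vertices of degree 6
-/

namespace Pool.Agent.Lib.MP_e95c01_co.Tube

theorem deg_eq {m : ℕ} (x : V m) {t : Ty} {i : ℕ} (hx : cd x = (t, i)) (L : List (Ty × ℕ))
    (hL : L.Nodup) (h : ∀ (t' : Ty) (j : ℕ), (ad m (t, i) (t', j) ∧ j < sz m t') ↔ (t', j) ∈ L) :
    ((G m).neighborSet x).ncard = L.length := by
  have hinj : Function.Injective (cd (m := m)) := fun a b hab => cd_inj hab
  rw [← Set.ncard_image_of_injective _ hinj]
  have h1 : cd '' ((G m).neighborSet x) = ((L.toFinset : Finset (Ty × ℕ)) : Set (Ty × ℕ)) := by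
    ext p
    obtain ⟨t', j⟩ := p
    rw [List.coe_toFinset]
    constructor
    · rintro ⟨y, hy, hyp⟩
      have h2 : ad m (cd x) (cd y) := hy
      have h3 := cd_lt y
      rw [hyp] at h2 h3
      rw [hx] at h2
      exact (h t' j).1 ⟨h2, h3⟩
    · intro hp
      have h2 := (h t' j).2 hp
      obtain ⟨y, hy⟩ := exists_cd (x := (t', j)) h2.2
      refine ⟨y, ?_, hy⟩
      show ad m (cd x) (cd y)
      rw [hy, hx]
      exact h2.1
  rw [h1, Set.ncard_coe_finset, List.toFinset_card_of_nodup hL]

theorem deg_n0 {m : ℕ} (hm : 5 ≤ m) (x : V m) {s : Bool} (hx : cd x = (.n s, 0)) :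
    ((G m).neighborSet x).ncard = 6 := by
  cases s
  · refine deg_eq x hx [(.n true, 0), (.l, 0), (.a false, 0), (.a true, 0), (.g, 0), (.g, 1)]
      (by simp) ?_
    intro t' j
    rcases t' with s' | _ | s' | s' | s' | _ <;> (try cases s') <;>
      simp [ad, e, sz] <;> omega
  · refine deg_eq x hx [(.n false, 0), (.l, 0), (.a false, 0), (.a true, 0), (.g, 0), (.g, 3)]
      (by simp) ?_
    intro t' j
    rcases t' with s' | _ | s' | s' | s' | _ <;> (try cases s') <;>
      simp [ad, e, sz] <;> omega

theorem deg_n1 {m : ℕ} {i : ℕ} (hi : i + 1 < m) (x : V m) {s : Bool} (hx : cd x = (.n s, i + 1)) :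
    ((G m).neighborSet x).ncard = 6 := by
  cases s
  · refine deg_eq x hx [(.n true, i + 1), (.a false, i + 1), (.a true, i + 1), (.b false, i), (.b true, i), (.g, i + 1)]
      (by simp) ?_
    intro t' j
    rcases t' with s' | _ | s' | s' | s' | _ <;> (try cases s') <;>
      simp [ad, e, sz] <;> omega
  · refine deg_eq x hx [(.n false, i + 1), (.a false, i + 1), (.a true, i + 1), (.b false, i), (.b true, i), (.g, i + 4)]
      (by simp) ?_
    intro t' j
    rcases t' with s' | _ | s' | s' | s' | _ <;> (try cases s') <;>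
      simp [ad, e, sz] <;> omega

theorem deg_n2 {m : ℕ} {i : ℕ} (hi : i + 1 = m) (x : V m) {s : Bool} (hx : cd x = (.n s, i + 1)) :
    ((G m).neighborSet x).ncard = 6 := by
  cases s
  · refine deg_eq x hx [(.n true, i + 1), (.l, i + 1), (.b false, i), (.b true, i), (.g, i + 1), (.g, i + 4)]
      (by simp) ?_
    intro t' j
    rcases t' with s' | _ | s' | s' | s' | _ <;> (try cases s') <;>
      simp [ad, e, sz] <;> omega
  · refine deg_eq x hx [(.n false, i + 1), (.l, i + 1), (.b false, i), (.b true, i), (.g, i + 4), (.g, i + 3)]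
      (by simp) ?_
    intro t' j
    rcases t' with s' | _ | s' | s' | s' | _ <;> (try cases s') <;>
      simp [ad, e, sz] <;> omega

theorem deg_l0 {m : ℕ} (hm : 5 ≤ m) (x : V m) (hx : cd x = (.l, 0)) :
    ((G m).neighborSet x).ncard = 6 := by
  refine deg_eq x hx [(.n false, 0), (.n true, 0), (.l, 1), (.c false, 0), (.c true, 0), (.g, 0)]
    (by simp) ?_
  intro t' j
  rcases t' with s' | _ | s' | s' | s' | _ <;> (try cases s') <;>
    simp [ad, e, sz] <;> omega

theorem deg_l1 {m : ℕ} {i : ℕ} (hi : i + 1 < m) (x : V m) (hx : cd x = (.l, i + 1)) :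
    ((G m).neighborSet x).ncard = 6 := by
  refine deg_eq x hx [(.l, i), (.l, i + 2), (.c false, i), (.c true, i), (.c false, i + 1), (.c true, i + 1)]
    (by simp) ?_
  intro t' j
  rcases t' with s' | _ | s' | s' | s' | _ <;> (try cases s') <;>
    simp [ad, e, sz] <;> omega

theorem deg_l2 {m : ℕ} {i : ℕ} (hi : i + 1 = m) (x : V m) (hx : cd x = (.l, i + 1)) :
    ((G m).neighborSet x).ncard = 6 := by
  refine deg_eq x hx [(.n false, i + 1), (.n true, i + 1), (.l, i), (.c false, i), (.c true, i), (.g, i + 4)]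
    (by simp) ?_
  intro t' j
  rcases t' with s' | _ | s' | s' | s' | _ <;> (try cases s') <;>
    simp [ad, e, sz] <;> omega

theorem deg_a {m : ℕ} {i : ℕ} (hi : i < m) (x : V m) {s : Bool} (hx : cd x = (.a s, i)) :
    ((G m).neighborSet x).ncard = 7 := by
  cases s
  · refine deg_eq x hx [(.a true, i), (.b false, i), (.b true, i), (.c false, i), (.c true, i), (.n false, i), (.n true, i)]
      (by simp) ?_
    intro t' j
    rcases t' with s' | _ | s' | s' | s' | _ <;> (try cases s') <;>
      simp [ad, e, sz] <;> omega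
  · refine deg_eq x hx [(.a false, i), (.b false, i), (.b true, i), (.c false, i), (.c true, i), (.n false, i), (.n true, i)]
      (by simp) ?_
    intro t' j
    rcases t' with s' | _ | s' | s' | s' | _ <;> (try cases s') <;>
      simp [ad, e, sz] <;> omega

theorem deg_b {m : ℕ} {i : ℕ} (hi : i < m) (x : V m) {s : Bool} (hx : cd x = (.b s, i)) :
    ((G m).neighborSet x).ncard = 7 := by
  cases s
  · refine deg_eq x hx [(.b true, i), (.a false, i), (.a true, i), (.c false, i), (.c true, i), (.n false, i + 1), (.n true, i + 1)]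
      (by simp) ?_
    intro t' j
    rcases t' with s' | _ | s' | s' | s' | _ <;> (try cases s') <;>
      simp [ad, e, sz] <;> omega
  · refine deg_eq x hx [(.b false, i), (.a false, i), (.a true, i), (.c false, i), (.c true, i), (.n false, i + 1), (.n true, i + 1)]
      (by simp) ?_
    intro t' j
    rcases t' with s' | _ | s' | s' | s' | _ <;> (try cases s') <;>
      simp [ad, e, sz] <;> omega

theorem deg_c {m : ℕ} {i : ℕ} (hi : i < m) (x : V m) {s : Bool} (hx : cd x = (.c s, i)) :
    ((G m).neighborSet x).ncard = 7 := by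
  cases s
  · refine deg_eq x hx [(.c true, i), (.a false, i), (.a true, i), (.b false, i), (.b true, i), (.l, i), (.l, i + 1)]
      (by simp) ?_
    intro t' j
    rcases t' with s' | _ | s' | s' | s' | _ <;> (try cases s') <;>
      simp [ad, e, sz] <;> omega
  · refine deg_eq x hx [(.c false, i), (.a false, i), (.a true, i), (.b false, i), (.b true, i), (.l, i), (.l, i + 1)]
      (by simp) ?_
    intro t' j
    rcases t' with s' | _ | s' | s' | s' | _ <;> (try cases s') <;>
      simp [ad, e, sz] <;> omega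

theorem deg_g0 {m : ℕ} (hm : 5 ≤ m) (x : V m) (hx : cd x = (.g, 0)) :
    ((G m).neighborSet x).ncard = 6 := by
  refine deg_eq x hx [(.g, 1), (.g, 2), (.g, 3), (.n false, 0), (.n true, 0), (.l, 0)]
    (by simp) ?_
  intro t' j
  rcases t' with s' | _ | s' | s' | s' | _ <;> (try cases s') <;>
    simp [ad, e, sz] <;> omega

theorem deg_g1 {m : ℕ} (hm : 5 ≤ m) (x : V m) (hx : cd x = (.g, 1)) :
    ((G m).neighborSet x).ncard = 6 := by
  refine deg_eq x hx [(.g, 0), (.g, 2), (.g, 3), (.g, 4), (.n false, 0), (.n false, 1)]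
    (by simp) ?_
  intro t' j
  rcases t' with s' | _ | s' | s' | s' | _ <;> (try cases s') <;>
    simp [ad, e, sz] <;> omega

theorem deg_g2 {m : ℕ} (hm : 5 ≤ m) (x : V m) (hx : cd x = (.g, 2)) :
    ((G m).neighborSet x).ncard = 6 := by
  refine deg_eq x hx [(.g, 0), (.g, 1), (.g, 3), (.g, 4), (.g, 5), (.n false, 2)]
    (by simp) ?_
  intro t' j
  rcases t' with s' | _ | s' | s' | s' | _ <;> (try cases s') <;>
    simp [ad, e, sz] <;> omega

theorem deg_g3 {m : ℕ} {i : ℕ} (hi : i + 3 ≤ m) (x : V m) (hx : cd x = (.g, i + 3)) :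
    ((G m).neighborSet x).ncard = 8 := by
  refine deg_eq x hx [(.g, i), (.g, i + 1), (.g, i + 2), (.g, i + 4), (.g, i + 5), (.g, i + 6), (.n false, i + 3), (.n true, i)]
    (by simp) ?_
  intro t' j
  rcases t' with s' | _ | s' | s' | s' | _ <;> (try cases s') <;>
    simp [ad, e, sz] <;> omega

theorem deg_g4 {m : ℕ} {i : ℕ} (hi : i + 2 = m) (x : V m) (hx : cd x = (.g, i + 3)) :
    ((G m).neighborSet x).ncard = 6 := by
  refine deg_eq x hx [(.g, i), (.g, i + 1), (.g, i + 2), (.g, i + 4), (.g, i + 5), (.n true, i)]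
    (by simp) ?_
  intro t' j
  rcases t' with s' | _ | s' | s' | s' | _ <;> (try cases s') <;>
    simp [ad, e, sz] <;> omega

theorem deg_g5 {m : ℕ} {i : ℕ} (hi : i + 1 = m) (x : V m) (hx : cd x = (.g, i + 3)) :
    ((G m).neighborSet x).ncard = 6 := by
  refine deg_eq x hx [(.g, i), (.g, i + 1), (.g, i + 2), (.g, i + 4), (.n true, i), (.n true, i + 1)]
    (by simp) ?_
  intro t' j
  rcases t' with s' | _ | s' | s' | s' | _ <;> (try cases s') <;>
    simp [ad, e, sz] <;> omega

theorem deg_g6 {m : ℕ} {i : ℕ} (hi : i = m) (x : V m) (hx : cd x = (.g, i + 3)) :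
    ((G m).neighborSet x).ncard = 6 := by
  refine deg_eq x hx [(.g, i), (.g, i + 1), (.g, i + 2), (.n false, i), (.n true, i), (.l, i)]
    (by simp) ?_
  intro t' j
  rcases t' with s' | _ | s' | s' | s' | _ <;> (try cases s') <;>
    simp [ad, e, sz] <;> omega

/-- the vertices of degree 6 -/
def low (m : ℕ) : Ty × ℕ → Bool
  | (.n _, _) => true
  | (.l, _) => true
  | (.g, i) => decide (i < 3 ∨ m < i)
  | _ => false

theorem deg_iff {m : ℕ} (hm : 5 ≤ m) (x : V m) :
    ((G m).neighborSet x).ncard = 6 ↔ low m (cd x) = true := by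
  have hlt := cd_lt x
  obtain ⟨⟨t, i⟩, hx⟩ : ∃ p : Ty × ℕ, cd x = p := ⟨_, rfl⟩
  rw [hx] at hlt ⊢
  rcases t with s | _ | s | s | s | _
  · simp only [sz] at hlt
    rcases i with _ | i
    · simp [deg_n0 hm x hx, low]
    · rcases Nat.lt_or_ge (i + 1) m with h | h
      · simp [deg_n1 h x hx, low]
      · simp [deg_n2 (by omega) x hx, low]
  · simp only [sz] at hlt
    rcases i with _ | i
    · simp [deg_l0 hm x hx, low]
    · rcases Nat.lt_or_ge (i + 1) m with h | h
      · simp [deg_l1 h x hx, low]
      · simp [deg_l2 (by omega) x hx, low]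
  · simp only [sz] at hlt
    simp [deg_a hlt x hx, low]
  · simp only [sz] at hlt
    simp [deg_b hlt x hx, low]
  · simp only [sz] at hlt
    simp [deg_c hlt x hx, low]
  · simp only [sz] at hlt
    rcases i with _ | _ | _ | i
    · simp [deg_g0 hm x hx, low]
    · simp [deg_g1 hm x hx, low]
    · simp [deg_g2 hm x hx, low]
    · rcases Nat.lt_or_ge m (i + 3) with h | h
      · rcases Nat.lt_or_ge m (i + 2) with h2 | h2
        · rcases Nat.lt_or_ge m (i + 1) with h3 | h3
          · simp [deg_g6 (by omega) x hx, low, h]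
          · simp [deg_g5 (by omega) x hx, low, h]
        · simp [deg_g4 (by omega) x hx, low, h]
      · simp [deg_g3 h x hx, low]
        omega

theorem stDeg38 {m : ℕ} (hm : 5 ≤ m) : numDeg 6 (G m) = 3 * m + 9 := by
  classical
  have h : (Finset.univ : Finset Ty) = {.n false, .n true, .l, .a false, .a true, .b false,
    .b true, .c false, .c true, .g} := by decide
  have h1 : {x : V m | ((G m).neighborSet x).ncard = 6} = ((Finset.univ.sigma
      (fun t : Ty => Finset.univ.filter (fun i : Fin (sz m t) => low m (t, (i : ℕ)) = true)) :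
      Finset (V m)) : Set (V m)) := by
    ext x
    simp only [Set.mem_ofPred_eq, Finset.mem_coe, Finset.mem_sigma, Finset.mem_univ, true_and,
      Finset.mem_filter]
    exact deg_iff hm x
  have hg : (Finset.univ.filter (fun i : Fin (m + 4) => low m (.g, (i : ℕ)) = true)).card = 6 := by
    rw [Finset.card_filter, Fin.sum_univ_eq_sum_range
      (fun i => if low m (.g, i) = true then 1 else 0) (m + 4), ← Finset.card_filter]
    have h2 : (Finset.range (m + 4)).filter (fun i => low m (.g, i) = true) =
        [0, 1, 2, m + 1, m + 2, m + 3].toFinset := by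
      ext i
      simp [low]
      omega
    rw [h2, List.toFinset_card_of_nodup]
    · rfl
    · simp
      omega
  have hc : ∀ t : Ty, (Finset.univ.filter
      (fun i : Fin (sz m t) => low m (t, (i : ℕ)) = true)).card =
      match t with
      | .n _ => m + 1
      | .l => m + 1
      | .g => 6
      | _ => 0 := by
    intro t
    rcases t with s | _ | s | s | s | _
    · show (Finset.univ.filter (fun _ : Fin (m + 1) => true = true)).card = m + 1
      simp
    · show (Finset.univ.filter (fun _ : Fin (m + 1) => true = true)).card = m + 1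
      simp
    · show (Finset.univ.filter (fun _ : Fin m => false = true)).card = 0
      simp
    · show (Finset.univ.filter (fun _ : Fin m => false = true)).card = 0
      simp
    · show (Finset.univ.filter (fun _ : Fin m => false = true)).card = 0
      simp
    · exact hg
  unfold numDeg
  rw [h1, Set.ncard_coe_finset, Finset.card_sigma, Finset.sum_congr rfl (fun t _ => hc t), h]
  simp
  omega

end Pool.Agent.Lib.MP_e95c01_co.Tube
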