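import Pool.Agent.Lib.MP_e95c01_co.Tube.Conn33
import Pool.Agent.Lib.MP_e95c01_co.Tube.Deg38
import Pool.Agent.Lib.MP_e95c01_co.Tube.Cut57

/-!
# `c_6 ≤ 3/10`
-/

namespace Pool.Agent.Lib.MP_e95c01_co.Tube

theorem critical {m : ℕ} (hm : 5 ≤ m) : Critical 6 (G m) :=
  ⟨stKC33 hm, stCut57 m hm⟩

theorem upper : cc 6 ≤ 3 / 10 := by
  apply csSup_le
  · refine ⟨0, le_refl _, ?_⟩
    intro W _ H _
    simp
  · rintro c ⟨-, hc⟩
    by_contra hlt
    push Not at hlt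
    obtain ⟨k, hk⟩ := exists_nat_gt (7 / (10 * c - 3))
    have h1 : (0 : ℝ) < 10 * c - 3 := by linarith
    have hm : 5 ≤ k + 5 := by omega
    have h2 := hc (V (k + 5)) (G (k + 5)) (critical hm)
    rw [card_V, stDeg38 hm] at h2
    push_cast at h2
    rw [div_lt_iff₀ h1] at hk
    nlinarith [hk, h1, (Nat.cast_nonneg k : (0 : ℝ) ≤ (k : ℝ))]

end Pool.Agent.Lib.MP_e95c01_co.Tube
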